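import Mathlib
import Pool.Agent.Helper34.LP.I5
import Pool.Agent.Helper34.LP.I7
import Pool.Agent.Helper34.LP.W5b

set_option autoImplicit false

namespace Pool.Agent.Results.MP_0f1375_an.SquareTopThree

open MeasureTheory

/-- Q1 for `p = 2` and the three highest derivatives, `k ≥ n - 3`: every `n ≥ 2`, all nodes. -/
theorem result :
    ∀ (n : ℕ) (xs : Fin n → ℝ), 2 ≤ n → Function.Injective xs →
      (∀ i, xs i ∈ Set.Icc (-1 : ℝ) 1) →
      ∀ k : ℕ, 1 ≤ k → k ≤ n - 1 → n ≤ k + 3 →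
      ∀ f : ℝ → ℝ, ContDiff ℝ ((n - 1 : ℕ) : WithTop ℕ∞) f →
        LipschitzOnWith 1 (iteratedDeriv (n - 1) f) (Set.Icc (-1 : ℝ) 1) →
        (∀ i, f (xs i) = 0) →
        ∫ x in (-1 : ℝ)..1, |iteratedDeriv k f x| ^ (2 : ℝ) ≤
          ∫ x in (-1 : ℝ)..1,
            |iteratedDeriv k (fun y => (∏ i, (y - xs i)) / (n.factorial : ℝ)) x| ^ (2 : ℝ) :=
  Pool.H34.LP.final3b Pool.H34.LP.main Pool.H34.LP.main3

end Pool.Agent.Results.MP_0f1375_an.SquareTopThree
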