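import Mathlib
import Pool.Agent.Helper34.LP.I3
import Pool.Agent.Helper34.LP.P5

set_option autoImplicit false

namespace Pool.Agent.Results.MP_0f1375_an.TopDerivativeAllP

open MeasureTheory

/-- Q1 for the top derivative `k = n - 1`: every `n ≥ 2`, all nodes, every `1 ≤ p < ∞`. -/
theorem result :
    ∀ (n : ℕ) (xs : Fin n → ℝ), 2 ≤ n → Function.Injective xs →
      (∀ i, xs i ∈ Set.Icc (-1 : ℝ) 1) →
      ∀ k : ℕ, k = n - 1 → ∀ p : ℝ, 1 ≤ p →
      ∀ f : ℝ → ℝ, ContDiff ℝ ((n - 1 : ℕ) : WithTop ℕ∞) f →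
        LipschitzOnWith 1 (iteratedDeriv (n - 1) f) (Set.Icc (-1 : ℝ) 1) →
        (∀ i, f (xs i) = 0) →
        ∫ x in (-1 : ℝ)..1, |iteratedDeriv k f x| ^ p ≤
          ∫ x in (-1 : ℝ)..1,
            |iteratedDeriv k (fun y => (∏ i, (y - xs i)) / (n.factorial : ℝ)) x| ^ p :=
  Pool.H34.LP.final Pool.H34.LP.inside

end Pool.Agent.Results.MP_0f1375_an.TopDerivativeAllP
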